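import Pool.Agent.H351R3.QI.Defs

/-!
The generic ring `V × T` (with `T` the space of functions on `Hom(V, N)` spanned by the products
`l ↦ l(a) l(b)`) and its quotients `V × T/Z`: local behaviour.
-/

set_option autoImplicit false

namespace Pool.Agent.H351R3.QI

open Submodule

section

variable {F : Type} [Field F] {N : Type} [AddCommGroup N] [Module F N]
  (γ : N →ₗ[F] N →ₗ[F] N) (V : Type) [AddCommGroup V] [Module F V]

/-- The function `l ↦ l(a) l(b)`. -/
def prodFun (a b : V) : (V →ₗ[F] N) → N := fun l => γ (l a) (l b)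

/-- The space spanned by all functions `l ↦ l(a) l(b)`. -/
def TT : Submodule F ((V →ₗ[F] N) → N) :=
  span F (Set.range fun ab : V × V => prodFun γ V ab.1 ab.2)

/-- The universal product. -/
def bz : V →ₗ[F] V →ₗ[F] TT γ V :=
  LinearMap.mk₂ F (fun a b => ⟨prodFun γ V a b, subset_span ⟨(a, b), rfl⟩⟩)
    (fun a a' b => by ext l; simp [prodFun])
    (fun c a b => by ext l; simp [prodFun])
    (fun a b b' => by ext l; simp [prodFun])
    (fun c a b => by ext l; simp [prodFun])

lemma bz_apply (a b : V) (l : V →ₗ[F] N) : (bz γ V a b : (V →ₗ[F] N) → N) l = γ (l a) (l b) :=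
  rfl

/-- evaluation at `l` -/
def evT (l : V →ₗ[F] N) : TT γ V →ₗ[F] N :=
  (LinearMap.proj l).comp (TT γ V).subtype

lemma evT_apply (l : V →ₗ[F] N) (t : TT γ V) : evT γ V l t = (t : (V →ₗ[F] N) → N) l := rfl

lemma evT_bz (l : V →ₗ[F] N) (a b : V) : evT γ V l (bz γ V a b) = γ (l a) (l b) := rfl

/-- induction principle for `TT` -/
lemma TT_induction {P : TT γ V → Prop} (h0 : P 0) (hadd : ∀ s t, P s → P t → P (s + t))
    (hmul : ∀ a b, P (bz γ V a b)) (t : TT γ V) : P t := by
  have key : ∀ (f : (V →ₗ[F] N) → N) (hf : f ∈ TT γ V), ∀ c : F, P (c • (⟨f, hf⟩ : TT γ V)) := by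
    intro f hf
    refine span_induction (p := fun f hf => ∀ c : F, P (c • (⟨f, hf⟩ : TT γ V))) ?_ ?_ ?_ ?_ hf
    · rintro _ ⟨⟨a, b⟩, rfl⟩ c
      have h := hmul (c • a) b
      rw [map_smul, LinearMap.smul_apply] at h
      exact h
    · intro c
      have : c • (⟨0, zero_mem _⟩ : TT γ V) = 0 := smul_zero c
      rw [this]
      exact h0
    · intro x y hx hy h1 h2 c
      have := hadd _ _ (h1 c) (h2 c)
      rw [← smul_add] at this
      exact this
    · intro a x hx h1 c
      have := h1 (c * a)
      rw [mul_smul] at this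
      exact this
  have := key t t.2 1
  rwa [one_smul] at this

/-- For disjoint subspaces `P`, `Z` there is an endomorphism which is the identity on `P` and
zero on `Z`. -/
lemma exists_retract {E : Type} [AddCommGroup E] [Module F E] (P Z : Submodule F E)
    (h : Disjoint P Z) : ∃ r : E →ₗ[F] E, (∀ x ∈ P, r x = x) ∧ ∀ x ∈ Z, r x = 0 := by
  obtain ⟨C, hPC, hC⟩ := h.exists_isCompl
  exact ⟨C.projection Z hC, fun x hx => projection_apply_of_mem_left hC (hPC hx),
    fun x hx => projection_apply_of_mem_right hC hx⟩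

lemma holds_Tw {N : Type} [NonUnitalNonAssocRing N] [Module F N]
    (γ : N →ₗ[F] N →ₗ[F] N) (hγ : ∀ a b, γ a b = a * b)
    (h3 : ∀ a b c : N, a * b * c = 0) (h3' : ∀ a b c : N, a * (b * c) = 0)
    (x y : N) (hxy : x * y ≠ 0)
    (V : Type) [AddCommGroup V] [Module F V] (Z : Submodule F (TT γ V)) (k : ℕ)
    (hZ : ∀ s : Finset V, s.card ≤ k → Disjoint (map₂ (bz γ V) (span F (s : Set V))
      (span F (s : Set V))) Z)
    (q : QId) (hk : q.vars.card ≤ k) (hq : q.Holds N) :
    q.Holds (Tw ((bz γ V).compr₂ Z.mkQ)) := by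
  classical
  intro v hyp
  let β := (bz γ V).compr₂ Z.mkQ
  change ℕ → Tw β at v
  let s : Finset V := q.vars.image fun i => (v i).fst
  have hs : s.card ≤ k := Finset.card_image_le.trans hk
  let U : Submodule F V := span F (s : Set V)
  obtain ⟨r, hr1, hr2⟩ := exists_retract _ _ (hZ s hs)
  -- the induced map on the quotient
  let rb : (TT γ V ⧸ Z) →ₗ[F] TT γ V := Z.liftQ r fun z hz => hr2 z hz
  have hrb : ∀ t, rb (Z.mkQ t) = r t := fun t => Z.liftQ_apply r t
  have hvU : ∀ i ∈ q.vars, (v i).fst ∈ U := fun i hi =>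
    subset_span (Finset.mem_coe.2 (Finset.mem_image_of_mem _ hi))
  have hβU : ∀ a ∈ U, ∀ b ∈ U, rb (β a b) = bz γ V a b := by
    intro a ha b hb
    have : β a b = Z.mkQ (bz γ V a b) := rfl
    rw [this, hrb]
    exact hr1 _ (apply_mem_map₂ _ ha hb)
  -- values of elements of `TT` annihilate `N`
  have hann : ∀ (l : V →ₗ[F] N) (t : TT γ V) (c : N), evT γ V l t * c = 0 ∧ c * evT γ V l t = 0 := by
    intro l t
    refine TT_induction γ V (P := fun t => ∀ c : N, evT γ V l t * c = 0 ∧ c * evT γ V l t = 0)
      ?_ ?_ ?_ t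
    · intro c
      simp
    · intro s t h1 h2 c
      rw [map_add, add_mul, mul_add, (h1 c).1, (h1 c).2, (h2 c).1, (h2 c).2]
      simp
    · intro a b c
      rw [evT_bz, hγ]
      exact ⟨h3 _ _ _, h3' _ _ _⟩
  -- the general transfer
  have transfer : ∀ φ : Tw β →+ N, (∀ a b : Tw β, a.fst ∈ U → b.fst ∈ U →
      φ (a * b) = φ a * φ b) → φ (q.concl.1.eval v) = φ (q.concl.2.eval v) := by
    intro φ hφ
    exact concl_partial φ (fun a => a.fst ∈ U) U.zero_mem (fun a b ha hb => U.add_mem ha hb)
      (fun a ha => U.neg_mem ha) (fun a b _ _ => U.zero_mem) hφ q hq v hvU hyp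
  set A := q.concl.1.eval v with hA
  set B := q.concl.2.eval v with hB
  have hxyann : ∀ (c : F) (d : F), (c • (x * y)) * (d • (x * y)) = 0 := by
    intro c d
    rw [← hγ x y, ← hγ, map_smul, map_smul, LinearMap.smul_apply, hγ, hγ, h3, smul_zero, smul_zero]
  have hfst : A.fst = B.fst := by
    rw [← sub_eq_zero, ← Module.forall_dual_apply_eq_zero_iff F]
    intro χ
    let φ : Tw β →+ N :=
      { toFun := fun a => χ a.fst • (x * y)
        map_zero' := by simp
        map_add' := fun a b => by simp [add_smul] }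
    have h := transfer φ (by
      intro a b _ _
      change χ (a * b).fst • (x * y) = (χ a.fst • (x * y)) * (χ b.fst • (x * y))
      rw [hxyann, fst_mul, map_zero, zero_smul])
    change χ A.fst • (x * y) = χ B.fst • (x * y) at h
    rw [map_sub, sub_eq_zero]
    rw [← sub_eq_zero, ← sub_smul] at h
    exact sub_eq_zero.1 ((smul_eq_zero.1 h).resolve_right hxy)
  have hsnd : A.snd = B.snd := by
    set f : TT γ V ⧸ Z := A.snd - B.snd with hf
    have h1 : f = Z.mkQ (rb f) := by
      rw [← sub_eq_zero, ← Module.forall_dual_apply_eq_zero_iff F]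
      intro χ
      let φ : Tw β →+ N :=
        { toFun := fun a => χ (a.snd - Z.mkQ (rb a.snd)) • (x * y)
          map_zero' := by simp
          map_add' := fun a b => by
            rw [← add_smul, ← map_add]
            congr 2
            rw [snd_add, map_add, map_add]
            abel }
      have h := transfer φ (by
        intro a b ha hb
        change χ ((a * b).snd - Z.mkQ (rb (a * b).snd)) • (x * y) =
          (χ (a.snd - Z.mkQ (rb a.snd)) • (x * y)) * (χ (b.snd - Z.mkQ (rb b.snd)) • (x * y))
        rw [hxyann, snd_mul, hβU _ ha _ hb]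
        have : β a.fst b.fst = Z.mkQ (bz γ V a.fst b.fst) := rfl
        rw [this, sub_self, map_zero, zero_smul])
      change χ (A.snd - Z.mkQ (rb A.snd)) • (x * y) = χ (B.snd - Z.mkQ (rb B.snd)) • (x * y) at h
      rw [← sub_eq_zero, ← sub_smul, ← map_sub] at h
      have h' := (smul_eq_zero.1 h).resolve_right hxy
      have h'' : f - Z.mkQ (rb f) = A.snd - Z.mkQ (rb A.snd) - (B.snd - Z.mkQ (rb B.snd)) := by
        rw [hf, map_sub rb, map_sub Z.mkQ]
        abel
      rw [h'', h']
    have h2 : rb f = 0 := by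
      apply Subtype.ext
      funext l
      let φ : Tw β →+ N :=
        { toFun := fun a => l a.fst + evT γ V l (rb a.snd)
          map_zero' := by simp
          map_add' := fun a b => by
            rw [fst_add, snd_add, map_add, map_add, map_add]
            abel }
      have h := transfer φ (by
        intro a b ha hb
        change l (a * b).fst + evT γ V l (rb (a * b).snd) =
          (l a.fst + evT γ V l (rb a.snd)) * (l b.fst + evT γ V l (rb b.snd))
        rw [fst_mul, snd_mul, hβU _ ha _ hb, evT_bz, hγ, map_zero, zero_add, mul_add,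
          (hann l _ _).2, add_mul, (hann l _ _).1]
        simp)
      change l A.fst + evT γ V l (rb A.snd) = l B.fst + evT γ V l (rb B.snd) at h
      rw [hfst] at h
      have h' := add_left_cancel h
      change evT γ V l (rb f) = 0
      rw [hf, map_sub, map_sub, h', sub_self]
    rw [← sub_eq_zero, ← hf, h1, h2, map_zero]
  exact Tw.ext hfst hsnd

end

end Pool.Agent.H351R3.QI
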