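import Mathlib

/-!
A counting lemma: a tuple `z` in a finite group avoiding few linear relations and few subgroups.
-/

set_option autoImplicit false

namespace Pool.Agent.H351R3.QI

open Finset

variable {F T : Type} [Field F] [AddCommGroup T] [Module F T]

lemma card_bad1 [Fintype T] (D : ℕ) (c : Fin D → F) (hc : c ≠ 0) (t : T)
    [Fintype {z : Fin D → T // ∑ a, c a • z a = t}] :
    Fintype.card T * Fintype.card {z : Fin D → T // ∑ a, c a • z a = t} ≤
      Fintype.card (Fin D → T) := by
  classical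
  obtain ⟨j, hj⟩ := Function.ne_iff.1 hc
  rw [← Fintype.card_prod]
  have hsum : ∀ (z : Fin D → T) (τ : T), ∑ a, c a • (z + Pi.single j τ : Fin D → T) a =
      ∑ a, c a • z a + c j • τ := by
    intro z τ
    simp only [Pi.add_apply, smul_add, Finset.sum_add_distrib]
    congr 1
    rw [Finset.sum_eq_single j]
    · rw [Pi.single_eq_same]
    · intro b _ hb
      rw [Pi.single_eq_of_ne hb, smul_zero]
    · intro h
      exact absurd (Finset.mem_univ j) h
  refine Fintype.card_le_of_injective (fun x => x.2.1 + Pi.single j x.1) ?_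
  rintro ⟨τ, z, hz⟩ ⟨τ', z', hz'⟩ h
  dsimp only at h
  have h1 := hsum z τ
  rw [h, hsum, hz, hz'] at h1
  have h2 : c j • τ' = c j • τ := add_left_cancel h1
  have h3 : τ' = τ := by
    have : (c j)⁻¹ • (c j • τ') = (c j)⁻¹ • (c j • τ) := by rw [h2]
    rwa [smul_smul, smul_smul, inv_mul_cancel₀ hj, one_smul, one_smul] at this
  subst h3
  have h4 : z = z' := add_right_cancel h
  subst h4
  rfl

lemma card_bad2 [Fintype T] (D : ℕ) (K : AddSubgroup T) (hK : K ≠ ⊤)
    [Fintype {z : Fin D → T // ∀ i, z i ∈ K}] :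
    2 ^ D * Fintype.card {z : Fin D → T // ∀ i, z i ∈ K} ≤ Fintype.card (Fin D → T) := by
  classical
  obtain ⟨τ, hτ⟩ : ∃ τ, τ ∉ K := by
    by_contra h
    push Not at h
    exact hK (eq_top_iff.2 fun x _ => h x)
  have h2 : (2 : ℕ) ^ D = Fintype.card (Fin D → Bool) := by simp
  rw [h2, ← Fintype.card_prod]
  refine Fintype.card_le_of_injective (fun x i => x.2.1 i + if x.1 i then τ else 0) ?_
  rintro ⟨b, z, hz⟩ ⟨b', z', hz'⟩ h
  dsimp only at h
  have hb : b = b' := by
    funext i
    have hi := congrFun h i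
    by_contra hne
    rcases hbi : b i with _ | _ <;> rcases hbi' : b' i with _ | _
    · exact hne (by rw [hbi, hbi'])
    · simp only [hbi, hbi', Bool.false_eq_true, if_false, add_zero, if_true] at hi
      apply hτ
      have : τ = z i - z' i := by rw [hi]; abel
      rw [this]
      exact K.sub_mem (hz i) (hz' i)
    · simp only [hbi, hbi', Bool.false_eq_true, if_false, add_zero, if_true] at hi
      apply hτ
      have : τ = z' i - z i := by rw [← hi]; abel
      rw [this]
      exact K.sub_mem (hz' i) (hz i)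
    · exact hne (by rw [hbi, hbi'])
  subst hb
  have hz : z = z' := by
    funext i
    exact add_right_cancel (congrFun h i)
  subst hz
  rfl

/-- Existence of a good tuple. -/
lemma exists_good [Fintype F] [Fintype T] (D : ℕ) {I J : Type} [Fintype I] [Fintype J]
    (w : I → T) (K : J → AddSubgroup T) (hK : ∀ j, K j ≠ ⊤)
    (h1 : Fintype.card J * 2 ≤ 2 ^ D)
    (h2 : 2 * (Fintype.card F ^ D * Fintype.card I) < Fintype.card T) :
    ∃ z : Fin D → T, (∀ c : Fin D → F, c ≠ 0 → ∀ i, ∑ a, c a • z a ≠ w i) ∧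
      ∀ j, ∃ a, z a ∉ K j := by
  classical
  by_contra hcon
  push Not at hcon
  have hΩ : 0 < Fintype.card (Fin D → T) := Fintype.card_pos_iff.2 ⟨0⟩
  let B1 : (Fin D → F) × I → Finset (Fin D → T) := fun ci =>
    if ci.1 = 0 then ∅ else Finset.univ.filter fun z => ∑ a, ci.1 a • z a = w ci.2
  let B2 : J → Finset (Fin D → T) := fun j => Finset.univ.filter fun z => ∀ a, z a ∈ K j
  have hcov : (Finset.univ : Finset (Fin D → T)) ⊆
      (Finset.univ.biUnion B1) ∪ (Finset.univ.biUnion B2) := by
    intro z _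
    by_cases hz : ∀ c : Fin D → F, c ≠ 0 → ∀ i, ∑ a, c a • z a ≠ w i
    · obtain ⟨j, hj⟩ := hcon z hz
      refine Finset.mem_union_right _ (Finset.mem_biUnion.2 ⟨j, Finset.mem_univ _, ?_⟩)
      exact Finset.mem_filter.2 ⟨Finset.mem_univ _, hj⟩
    · push Not at hz
      obtain ⟨c, hc, i, hi⟩ := hz
      refine Finset.mem_union_left _ (Finset.mem_biUnion.2 ⟨(c, i), Finset.mem_univ _, ?_⟩)
      simp only [B1, if_neg hc]
      exact Finset.mem_filter.2 ⟨Finset.mem_univ _, hi⟩
  have hB1 : ∀ ci, Fintype.card T * (B1 ci).card ≤ Fintype.card (Fin D → T) := by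
    intro ci
    by_cases hc : ci.1 = 0
    · simp [B1, hc]
    · have := card_bad1 D ci.1 hc (w ci.2)
      rw [Fintype.card_subtype] at this
      simpa only [B1, if_neg hc] using this
  have hB2 : ∀ j, 2 ^ D * (B2 j).card ≤ Fintype.card (Fin D → T) := by
    intro j
    have := card_bad2 D (K j) (hK j)
    rw [Fintype.card_subtype] at this
    exact this
  have hle : Fintype.card (Fin D → T) ≤ ∑ ci, (B1 ci).card + ∑ j, (B2 j).card := by
    rw [← Finset.card_univ]
    exact (Finset.card_le_card hcov).trans ((Finset.card_union_le _ _).trans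
      (Nat.add_le_add Finset.card_biUnion_le Finset.card_biUnion_le))
  have hS1 : Fintype.card T * ∑ ci, (B1 ci).card ≤
      (Fintype.card F ^ D * Fintype.card I) * Fintype.card (Fin D → T) := by
    rw [Finset.mul_sum]
    refine (Finset.sum_le_card_nsmul _ _ _ fun ci _ => hB1 ci).trans (le_of_eq ?_)
    rw [Finset.card_univ, Fintype.card_prod, Fintype.card_fun, Fintype.card_fin, smul_eq_mul]
  have hS2 : 2 ^ D * ∑ j, (B2 j).card ≤ Fintype.card J * Fintype.card (Fin D → T) := by
    rw [Finset.mul_sum]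
    refine (Finset.sum_le_card_nsmul _ _ _ fun j _ => hB2 j).trans (le_of_eq ?_)
    rw [Finset.card_univ, smul_eq_mul]
  set Ω := Fintype.card (Fin D → T) with hΩdef
  set S1 := ∑ ci, (B1 ci).card with hS1def
  set S2 := ∑ j, (B2 j).card with hS2def
  -- 2 * S1 < Ω and 2 * S2 ≤ Ω
  have h3 : 2 * S1 < Ω := by
    by_contra hge
    push Not at hge
    have hTpos : 0 < Fintype.card T := by omega
    have h4 : Fintype.card T * Ω ≤ Fintype.card T * (2 * S1) := Nat.mul_le_mul_left _ hge
    have h5 : Fintype.card T * (2 * S1) ≤ 2 * (Fintype.card F ^ D * Fintype.card I) * Ω := by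
      calc Fintype.card T * (2 * S1) = 2 * (Fintype.card T * S1) := by ring
        _ ≤ 2 * ((Fintype.card F ^ D * Fintype.card I) * Ω) := Nat.mul_le_mul_left _ hS1
        _ = 2 * (Fintype.card F ^ D * Fintype.card I) * Ω := by ring
    have h6 : Fintype.card T * Ω ≤ 2 * (Fintype.card F ^ D * Fintype.card I) * Ω := h4.trans h5
    have h7 := Nat.le_of_mul_le_mul_right h6 hΩ
    omega
  have h4 : 2 * S2 ≤ Ω := by
    by_contra hge
    push Not at hge
    have hD : 0 < 2 ^ D := by positivity
    have h5 : 2 ^ D * Ω < 2 ^ D * (2 * S2) := Nat.mul_lt_mul_of_pos_left hge hD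
    have h6 : 2 ^ D * (2 * S2) ≤ 2 ^ D * Ω := by
      calc 2 ^ D * (2 * S2) = 2 * (2 ^ D * S2) := by ring
        _ ≤ 2 * (Fintype.card J * Ω) := Nat.mul_le_mul_left _ hS2
        _ = (Fintype.card J * 2) * Ω := by ring
        _ ≤ 2 ^ D * Ω := Nat.mul_le_mul_right _ h1
    omega
  omega

end Pool.Agent.H351R3.QI
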