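import Mathlib

/-!
Quasi-identities of (nonassociative) rings: terms, quasi-identities, finite bases; and the
twisted nilpotent rings `V × M` with product `(a, f) (b, g) = (0, β a b)`.
-/

set_option autoImplicit false

namespace Pool.Agent.H351R3.QI

/-- Terms in the signature `{+, -, 0, ·}` with variables indexed by `ℕ`. -/
inductive RTerm : Type
  | var : ℕ → RTerm
  | zero : RTerm
  | add : RTerm → RTerm → RTerm
  | neg : RTerm → RTerm
  | mul : RTerm → RTerm → RTerm

/-- Value of a term under the valuation `v`. -/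
def RTerm.eval {A : Type} [Zero A] [Add A] [Neg A] [Mul A] (v : ℕ → A) : RTerm → A
  | .var n => v n
  | .zero => 0
  | .add s t => s.eval v + t.eval v
  | .neg s => - s.eval v
  | .mul s t => s.eval v * t.eval v

/-- The variables of a term. -/
def RTerm.vars : RTerm → Finset ℕ
  | .var n => {n}
  | .zero => ∅
  | .add s t => s.vars ∪ t.vars
  | .neg s => s.vars
  | .mul s t => s.vars ∪ t.vars

/-- A quasi-identity `∀ x, s₁ = t₁ ∧ … ∧ sₙ = tₙ → s = t`. -/
structure QId : Type where
  hyps : List (RTerm × RTerm)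
  concl : RTerm × RTerm

/-- The quasi-identity is true in `A`. -/
def QId.Holds (q : QId) (A : Type) [Zero A] [Add A] [Neg A] [Mul A] : Prop :=
  ∀ v : ℕ → A, (∀ e ∈ q.hyps, e.1.eval v = e.2.eval v) → q.concl.1.eval v = q.concl.2.eval v

/-- The variables of a quasi-identity. -/
def QId.vars (q : QId) : Finset ℕ :=
  q.concl.1.vars ∪ q.concl.2.vars ∪
    (q.hyps.map fun e => e.1.vars ∪ e.2.vars).foldr (· ∪ ·) ∅

lemma subset_foldr {l : List (Finset ℕ)} {s : Finset ℕ} (h : s ∈ l) :
    s ⊆ l.foldr (· ∪ ·) ∅ := by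
  induction l with
  | nil => simp at h
  | cons a l ih =>
    rcases List.mem_cons.1 h with h | h
    · subst h; simp
    · exact (ih h).trans (by simp)

lemma vars_hyp {q : QId} {e : RTerm × RTerm} (he : e ∈ q.hyps) :
    e.1.vars ∪ e.2.vars ⊆ q.vars := by
  refine Finset.Subset.trans ?_ Finset.subset_union_right
  exact subset_foldr (List.mem_map.2 ⟨e, he, rfl⟩)

section tw

variable {F V M : Type} [Field F] [AddCommGroup V] [Module F V] [AddCommGroup M] [Module F M]

/-- The ring `V × M` with product `(a, f) (b, g) = (0, β a b)`. -/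
@[ext]
structure Tw (β : V →ₗ[F] V →ₗ[F] M) : Type where
  fst : V
  snd : M

variable (β : V →ₗ[F] V →ₗ[F] M)

/-- the underlying pair -/
def twEquiv : Tw β ≃ V × M where
  toFun a := (a.fst, a.snd)
  invFun a := ⟨a.1, a.2⟩
  left_inv _ := rfl
  right_inv _ := rfl

instance : AddCommGroup (Tw β) := (twEquiv β).addCommGroup

instance : Mul (Tw β) := ⟨fun a b => ⟨0, β a.fst b.fst⟩⟩

@[simp] lemma fst_mul (a b : Tw β) : (a * b).fst = 0 := rfl
@[simp] lemma snd_mul (a b : Tw β) : (a * b).snd = β a.fst b.fst := rfl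
@[simp] lemma fst_add (a b : Tw β) : (a + b).fst = a.fst + b.fst := rfl
@[simp] lemma snd_add (a b : Tw β) : (a + b).snd = a.snd + b.snd := rfl
@[simp] lemma fst_neg (a : Tw β) : (-a).fst = -a.fst := rfl
@[simp] lemma snd_neg (a : Tw β) : (-a).snd = -a.snd := rfl
@[simp] lemma fst_zero : (0 : Tw β).fst = 0 := rfl
@[simp] lemma snd_zero : (0 : Tw β).snd = 0 := rfl

instance : NonUnitalNonAssocRing (Tw β) where
  left_distrib a b c := by
    ext <;> simp
  right_distrib a b c := by
    ext <;> simp
  zero_mul a := by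
    ext <;> simp
  mul_zero a := by
    ext <;> simp

instance [Finite V] [Finite M] : Finite (Tw β) := Finite.of_equiv _ (twEquiv β).symm

lemma tw_mul_mul (a b c : Tw β) : a * b * c = 0 := by
  ext <;> simp

lemma tw_mul_mul' (a b c : Tw β) : a * (b * c) = 0 := by
  ext <;> simp

end tw

section partialHom

/-- An additive map which is multiplicative on a set closed under the operations respects
terms. -/
lemma eval_partial {B N : Type} [NonUnitalNonAssocRing B] [NonUnitalNonAssocRing N]
    (φ : B →+ N) (P : B → Prop) (h0 : P 0) (hadd : ∀ a b, P a → P b → P (a + b))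
    (hneg : ∀ a, P a → P (-a)) (hmul : ∀ a b, P a → P b → P (a * b))
    (hφ : ∀ a b, P a → P b → φ (a * b) = φ a * φ b) (v : ℕ → B) (t : RTerm)
    (hv : ∀ i ∈ t.vars, P (v i)) :
    P (t.eval v) ∧ t.eval (fun i => φ (v i)) = φ (t.eval v) := by
  induction t with
  | var n => exact ⟨hv n (by simp [RTerm.vars]), rfl⟩
  | zero => exact ⟨h0, (map_zero φ).symm⟩
  | add s t hs ht =>
    obtain ⟨h1, h2⟩ := hs fun i hi => hv i (Finset.mem_union_left _ hi)
    obtain ⟨h3, h4⟩ := ht fun i hi => hv i (Finset.mem_union_right _ hi)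
    refine ⟨hadd _ _ h1 h3, ?_⟩
    simp only [RTerm.eval, h2, h4, map_add]
  | neg s hs =>
    obtain ⟨h1, h2⟩ := hs hv
    refine ⟨hneg _ h1, ?_⟩
    simp only [RTerm.eval, h2, map_neg]
  | mul s t hs ht =>
    obtain ⟨h1, h2⟩ := hs fun i hi => hv i (Finset.mem_union_left _ hi)
    obtain ⟨h3, h4⟩ := ht fun i hi => hv i (Finset.mem_union_right _ hi)
    refine ⟨hmul _ _ h1 h3, ?_⟩
    simp only [RTerm.eval, h2, h4, hφ _ _ h1 h3]

/-- A quasi-identity of `N` transfers along such maps. -/
lemma concl_partial {B N : Type} [NonUnitalNonAssocRing B] [NonUnitalNonAssocRing N]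
    (φ : B →+ N) (P : B → Prop) (h0 : P 0) (hadd : ∀ a b, P a → P b → P (a + b))
    (hneg : ∀ a, P a → P (-a)) (hmul : ∀ a b, P a → P b → P (a * b))
    (hφ : ∀ a b, P a → P b → φ (a * b) = φ a * φ b) (q : QId) (hq : q.Holds N) (v : ℕ → B)
    (hv : ∀ i ∈ q.vars, P (v i)) (hyp : ∀ e ∈ q.hyps, e.1.eval v = e.2.eval v) :
    φ (q.concl.1.eval v) = φ (q.concl.2.eval v) := by
  have key := fun (t : RTerm) (ht : t.vars ⊆ q.vars) =>
    (eval_partial φ P h0 hadd hneg hmul hφ v t fun i hi => hv i (ht hi)).2
  rw [← key q.concl.1 (Finset.subset_union_left.trans Finset.subset_union_left),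
    ← key q.concl.2 (Finset.subset_union_right.trans Finset.subset_union_left)]
  refine hq _ fun e he => ?_
  rw [key e.1 (Finset.subset_union_left.trans (vars_hyp he)),
    key e.2 (Finset.subset_union_right.trans (vars_hyp he)), hyp e he]

end partialHom

/-- The ring `A` has a finite basis of quasi-identities: finitely many quasi-identities true in
`A` such that every quasi-identity true in `A` holds in all their models (structures in the
signature `{0, +, -, ·}`). -/
def HasFiniteBasis (A : Type) [Zero A] [Add A] [Neg A] [Mul A] : Prop :=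
  ∃ S : Set QId, S.Finite ∧ (∀ r ∈ S, r.Holds A) ∧
    ∀ q : QId, q.Holds A → ∀ (B : Type) [Zero B] [Add B] [Neg B] [Mul B],
      (∀ r ∈ S, r.Holds B) → q.Holds B

/-- The same with only (nonassociative) rings as models. -/
def HasFiniteBasisAmongRings (A : Type) [NonUnitalNonAssocRing A] : Prop :=
  ∃ S : Set QId, S.Finite ∧ (∀ r ∈ S, r.Holds A) ∧
    ∀ q : QId, q.Holds A → ∀ (B : Type) [NonUnitalNonAssocRing B],
      (∀ r ∈ S, r.Holds B) → q.Holds B

lemma HasFiniteBasis.amongRings {A : Type} [NonUnitalNonAssocRing A] (h : HasFiniteBasis A) :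
    HasFiniteBasisAmongRings A := by
  obtain ⟨S, h1, h2, h3⟩ := h
  exact ⟨S, h1, h2, fun q hq B _ hB => h3 q hq B hB⟩

/-- The criterion: for each `k` a ring satisfying all quasi-identities of `A` in at most `k`
variables but not all quasi-identities of `A`. -/
lemma not_finiteBasis {A : Type} [NonUnitalNonAssocRing A]
    (h : ∀ k : ℕ, ∃ (B : Type) (_ : NonUnitalNonAssocRing B),
      (∀ q : QId, q.vars.card ≤ k → q.Holds A → q.Holds B) ∧
      ∃ q : QId, q.Holds A ∧ ¬ q.Holds B) : ¬ HasFiniteBasisAmongRings A := by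
  rintro ⟨S, hS, h1, h2⟩
  obtain ⟨B, _, hB, q, hq, hq'⟩ := h (hS.toFinset.sup fun r => r.vars.card)
  refine hq' (h2 q hq B fun r hr => hB r ?_ (h1 r hr))
  exact Finset.le_sup (f := fun r : QId => r.vars.card) (hS.mem_toFinset.2 hr)

/-- The diagram quasi-identity: if every homomorphism `B → A` kills `d ≠ 0` and `B` is finite,
then some quasi-identity of `A` fails in `B`. -/
lemma diagram {A B : Type} [NonUnitalNonAssocRing A] [NonUnitalNonAssocRing B] [Finite B]
    (d : B) (hd : d ≠ 0)
    (h : ∀ φ : B → A, (∀ a b, φ (a + b) = φ a + φ b) → (∀ a b, φ (a * b) = φ a * φ b) →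
      φ d = 0) : ∃ q : QId, q.Holds A ∧ ¬ q.Holds B := by
  classical
  have : Fintype B := Fintype.ofFinite B
  let e := Fintype.equivFin B
  let X : B → RTerm := fun b => .var (e b)
  let q : QId :=
    { hyps := ((Finset.univ : Finset (B × B)).toList.map fun ab =>
          (RTerm.add (X ab.1) (X ab.2), X (ab.1 + ab.2))) ++
        ((Finset.univ : Finset (B × B)).toList.map fun ab =>
          (RTerm.mul (X ab.1) (X ab.2), X (ab.1 * ab.2)))
      concl := (X d, RTerm.zero) }
  refine ⟨q, ?_, ?_⟩
  · intro v hv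
    refine h (fun b => v (e b)) ?_ ?_
    · intro a b
      have := hv (RTerm.add (X a) (X b), X (a + b)) (by
        refine List.mem_append_left _ (List.mem_map.2 ⟨(a, b), ?_, rfl⟩)
        simp)
      exact this.symm
    · intro a b
      have := hv (RTerm.mul (X a) (X b), X (a * b)) (by
        refine List.mem_append_right _ (List.mem_map.2 ⟨(a, b), ?_, rfl⟩)
        simp)
      exact this.symm
  · intro hq
    have hX : ∀ b : B, (X b).eval (fun i => if hi : i < Fintype.card B then e.symm ⟨i, hi⟩ else 0)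
        = b := by
      intro b
      change (if hi : (e b : ℕ) < Fintype.card B then e.symm ⟨(e b : ℕ), hi⟩ else 0) = b
      rw [dif_pos (e b).2]
      exact e.symm_apply_apply b
    refine hd ?_
    have := hq (fun i => if hi : i < Fintype.card B then e.symm ⟨i, hi⟩ else 0) ?_
    · rw [← hX d]
      exact this
    · intro r hr
      rcases List.mem_append.1 hr with hr | hr
      · obtain ⟨⟨a, b⟩, -, rfl⟩ := List.mem_map.1 hr
        change (X a).eval _ + (X b).eval _ = (X (a + b)).eval _
        rw [hX, hX, hX]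
      · obtain ⟨⟨a, b⟩, -, rfl⟩ := List.mem_map.1 hr
        change (X a).eval _ * (X b).eval _ = (X (a * b)).eval _
        rw [hX, hX, hX]

end Pool.Agent.H351R3.QI
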