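import Pool.Agent.H351R3.QI.Main

/-!
The criterion for subrings, and examples: the ring `x F_p[x]/(x³)`, the split octonions over
`F_p` (Zorn vector matrices), the Jordan ring of `3 × 3` matrices over `F_p`.
-/

set_option autoImplicit false

namespace Pool.Agent.H351R3.QI

/-- `ZMod p`-bilinear multiplication. -/
def mulZ (p : ℕ) (N : Type) [NonUnitalNonAssocRing N] [Module (ZMod p) N] :
    N →ₗ[ZMod p] N →ₗ[ZMod p] N :=
  LinearMap.mk₂ (ZMod p) (fun a b => a * b) add_mul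
    (fun c a b => ZMod.map_smul (AddMonoidHom.mulRight b) c a) mul_add
    (fun c a b => ZMod.map_smul (AddMonoidHom.mulLeft a) c b)

/-- The criterion. -/
theorem criterion (A : Type) [NonUnitalNonAssocRing A] [Finite A] (S : NonUnitalSubring A)
    (p : ℕ) (hp : p.Prime) (hpS : ∀ x ∈ S, p • x = 0)
    (h3 : ∀ x ∈ S, ∀ y ∈ S, ∀ z ∈ S, x * y * z = 0 ∧ x * (y * z) = 0)
    (hne : ∃ x ∈ S, ∃ y ∈ S, x * y ≠ 0) : ¬ HasFiniteBasisAmongRings A := by
  have : Fact p.Prime := ⟨hp⟩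
  let _ : Module (ZMod p) S :=
    AddCommGroup.zmodModule fun x => Subtype.ext (by simpa using hpS x x.2)
  obtain ⟨x, hx, y, hy, hxy⟩ := hne
  refine no_basis_aux (p := p) (N := S) Subtype.val Subtype.val_injective (fun _ _ => rfl)
    (fun _ _ => rfl) (mulZ p S) (fun _ _ => rfl)
    (fun a b c => Subtype.ext (h3 a a.2 b b.2 c c.2).1)
    (fun a b c => Subtype.ext (h3 a a.2 b b.2 c c.2).2) ⟨x, hx⟩ ⟨y, hy⟩ ?_
  intro h
  exact hxy (congrArg Subtype.val h)

/-- Alternative rings. -/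
def IsAlternative (A : Type) [Mul A] : Prop :=
  ∀ x y : A, (x * x) * y = x * (x * y) ∧ (y * x) * x = y * (x * x)

/-- Jordan rings. -/
def IsJordanRing (A : Type) [Mul A] : Prop :=
  ∀ x y : A, x * y = y * x ∧ ((x * x) * y) * x = (x * x) * (y * x)

/-- Zorn vector matrices `[[a, u], [v, b]]` over a commutative ring: the split octonions. -/
@[ext]
structure Zorn (R : Type) : Type where
  a : R
  u0 : R
  u1 : R
  u2 : R
  v0 : R
  v1 : R
  v2 : R
  b : R

namespace Zorn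

variable {R : Type} [CommRing R]

/-- the underlying tuple -/
def equivProd : Zorn R ≃ R × R × R × R × R × R × R × R where
  toFun x := (x.a, x.u0, x.u1, x.u2, x.v0, x.v1, x.v2, x.b)
  invFun x := ⟨x.1, x.2.1, x.2.2.1, x.2.2.2.1, x.2.2.2.2.1, x.2.2.2.2.2.1, x.2.2.2.2.2.2.1,
    x.2.2.2.2.2.2.2⟩
  left_inv _ := rfl
  right_inv _ := rfl

instance : AddCommGroup (Zorn R) := equivProd.addCommGroup

/-- `[[a, u], [v, b]] [[a', u'], [v', b']] =
[[a a' + u·v', a u' + b' u - v × v'], [a' v + b v' + u × u', b b' + v·u']]` -/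
instance : Mul (Zorn R) :=
  ⟨fun x y =>
    { a := x.a * y.a + (x.u0 * y.v0 + x.u1 * y.v1 + x.u2 * y.v2)
      u0 := x.a * y.u0 + y.b * x.u0 - (x.v1 * y.v2 - x.v2 * y.v1)
      u1 := x.a * y.u1 + y.b * x.u1 - (x.v2 * y.v0 - x.v0 * y.v2)
      u2 := x.a * y.u2 + y.b * x.u2 - (x.v0 * y.v1 - x.v1 * y.v0)
      v0 := y.a * x.v0 + x.b * y.v0 + (x.u1 * y.u2 - x.u2 * y.u1)
      v1 := y.a * x.v1 + x.b * y.v1 + (x.u2 * y.u0 - x.u0 * y.u2)
      v2 := y.a * x.v2 + x.b * y.v2 + (x.u0 * y.u1 - x.u1 * y.u0)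
      b := x.b * y.b + (x.v0 * y.u0 + x.v1 * y.u1 + x.v2 * y.u2) }⟩

@[simp] lemma mul_a (x y : Zorn R) : (x * y).a =
    x.a * y.a + (x.u0 * y.v0 + x.u1 * y.v1 + x.u2 * y.v2) := rfl
@[simp] lemma mul_u0 (x y : Zorn R) : (x * y).u0 =
    x.a * y.u0 + y.b * x.u0 - (x.v1 * y.v2 - x.v2 * y.v1) := rfl
@[simp] lemma mul_u1 (x y : Zorn R) : (x * y).u1 =
    x.a * y.u1 + y.b * x.u1 - (x.v2 * y.v0 - x.v0 * y.v2) := rfl
@[simp] lemma mul_u2 (x y : Zorn R) : (x * y).u2 =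
    x.a * y.u2 + y.b * x.u2 - (x.v0 * y.v1 - x.v1 * y.v0) := rfl
@[simp] lemma mul_v0 (x y : Zorn R) : (x * y).v0 =
    y.a * x.v0 + x.b * y.v0 + (x.u1 * y.u2 - x.u2 * y.u1) := rfl
@[simp] lemma mul_v1 (x y : Zorn R) : (x * y).v1 =
    y.a * x.v1 + x.b * y.v1 + (x.u2 * y.u0 - x.u0 * y.u2) := rfl
@[simp] lemma mul_v2 (x y : Zorn R) : (x * y).v2 =
    y.a * x.v2 + x.b * y.v2 + (x.u0 * y.u1 - x.u1 * y.u0) := rfl
@[simp] lemma mul_b (x y : Zorn R) : (x * y).b =
    x.b * y.b + (x.v0 * y.u0 + x.v1 * y.u1 + x.v2 * y.u2) := rfl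
@[simp] lemma add_a (x y : Zorn R) : (x + y).a = x.a + y.a := rfl
@[simp] lemma zero_a : (0 : Zorn R).a = 0 := rfl
@[simp] lemma add_u0 (x y : Zorn R) : (x + y).u0 = x.u0 + y.u0 := rfl
@[simp] lemma zero_u0 : (0 : Zorn R).u0 = 0 := rfl
@[simp] lemma add_u1 (x y : Zorn R) : (x + y).u1 = x.u1 + y.u1 := rfl
@[simp] lemma zero_u1 : (0 : Zorn R).u1 = 0 := rfl
@[simp] lemma add_u2 (x y : Zorn R) : (x + y).u2 = x.u2 + y.u2 := rfl
@[simp] lemma zero_u2 : (0 : Zorn R).u2 = 0 := rfl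
@[simp] lemma add_v0 (x y : Zorn R) : (x + y).v0 = x.v0 + y.v0 := rfl
@[simp] lemma zero_v0 : (0 : Zorn R).v0 = 0 := rfl
@[simp] lemma add_v1 (x y : Zorn R) : (x + y).v1 = x.v1 + y.v1 := rfl
@[simp] lemma zero_v1 : (0 : Zorn R).v1 = 0 := rfl
@[simp] lemma add_v2 (x y : Zorn R) : (x + y).v2 = x.v2 + y.v2 := rfl
@[simp] lemma zero_v2 : (0 : Zorn R).v2 = 0 := rfl
@[simp] lemma add_b (x y : Zorn R) : (x + y).b = x.b + y.b := rfl
@[simp] lemma zero_b : (0 : Zorn R).b = 0 := rfl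

instance : NonUnitalNonAssocRing (Zorn R) where
  left_distrib x y z := by
    ext <;> simp <;> ring
  right_distrib x y z := by
    ext <;> simp <;> ring
  zero_mul x := by
    ext <;> simp
  mul_zero x := by
    ext <;> simp

instance [Finite R] : Finite (Zorn R) := Finite.of_equiv _ equivProd.symm

lemma isAlternative : IsAlternative (Zorn R) := by
  intro x y
  constructor
  · ext <;> simp <;> ring
  · ext <;> simp <;> ring

lemma nsmul_eq (n : ℕ) (x : Zorn R) : (n • x) =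
    ⟨n • x.a, n • x.u0, n • x.u1, n • x.u2, n • x.v0, n • x.v1, n • x.v2, n • x.b⟩ := rfl

/-- The subring of the `[[0, u], [v, 0]]` with `u = (*, *, 0)`, `v = (0, 0, *)`. -/
def sub : NonUnitalSubring (Zorn R) where
  carrier := {x | x.a = 0 ∧ x.b = 0 ∧ x.u2 = 0 ∧ x.v0 = 0 ∧ x.v1 = 0}
  add_mem' := by
    rintro x y ⟨h1, h2, h3, h4, h5⟩ ⟨g1, g2, g3, g4, g5⟩
    simp only [Set.mem_ofPred_eq, add_a, add_b, add_u2, add_v0, add_v1, h1, h2, h3, h4, h5, g1, g2,
      g3, g4, g5, add_zero, and_self]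
  zero_mem' := ⟨rfl, rfl, rfl, rfl, rfl⟩
  mul_mem' := by
    rintro x y ⟨h1, h2, h3, h4, h5⟩ ⟨g1, g2, g3, g4, g5⟩
    simp [h1, h2, h3, h4, h5, g1, g2, g3, g4, g5]
  neg_mem' := by
    rintro x ⟨h1, h2, h3, h4, h5⟩
    exact ⟨neg_eq_zero.2 h1, neg_eq_zero.2 h2, neg_eq_zero.2 h3, neg_eq_zero.2 h4,
      neg_eq_zero.2 h5⟩

theorem not_finiteBasis (p : ℕ) [hp : Fact p.Prime] :
    ¬ HasFiniteBasisAmongRings (Zorn (ZMod p)) := by
  refine criterion (Zorn (ZMod p)) sub p hp.out ?_ ?_ ?_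
  · intro x _
    rw [nsmul_eq]
    ext <;> simp
  · rintro x ⟨h1, h2, h3, h4, h5⟩ y ⟨g1, g2, g3, g4, g5⟩ z ⟨k1, k2, k3, k4, k5⟩
    constructor <;> ext <;> simp [h1, h2, h3, h4, h5, g1, g2, g3, g4, g5, k1, k2, k3, k4, k5]
  · refine ⟨⟨0, 1, 0, 0, 0, 0, 0, 0⟩, ⟨rfl, rfl, rfl, rfl, rfl⟩, ⟨0, 0, 1, 0, 0, 0, 0, 0⟩,
      ⟨rfl, rfl, rfl, rfl, rfl⟩, ?_⟩
    intro h
    have := congrArg Zorn.v2 h
    simp at this

theorem not_assoc (p : ℕ) [hp : Fact p.Prime] : ∃ x y z : Zorn (ZMod p),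
    (x * y) * z ≠ x * (y * z) := by
  refine ⟨⟨0, 1, 0, 0, 0, 0, 0, 0⟩, ⟨0, 0, 1, 0, 0, 0, 0, 0⟩, ⟨0, 0, 0, 1, 0, 0, 0, 0⟩, ?_⟩
  intro h
  have := congrArg Zorn.a h
  simp at this

end Zorn

/-- The ring `R⁺`: the additive group of `R` with the product `x ∘ y = x y + y x`. -/
def Plus (R : Type) : Type := R

namespace Plus

variable {R : Type} [Ring R]

instance : AddCommGroup (Plus R) := inferInstanceAs (AddCommGroup R)

/-- the underlying element -/
def val (x : Plus R) : R := x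

instance : Mul (Plus R) := ⟨fun x y => (val x * val y + val y * val x : R)⟩

omit [Ring R] in
lemma ext' {x y : Plus R} (h : val x = val y) : x = y := h

@[simp] lemma val_mul (x y : Plus R) : val (x * y) = val x * val y + val y * val x := rfl
@[simp] lemma val_add (x y : Plus R) : val (x + y) = val x + val y := rfl
@[simp] lemma val_neg (x : Plus R) : val (-x) = -val x := rfl
@[simp] lemma val_zero : val (0 : Plus R) = 0 := rfl
@[simp] lemma val_nsmul (n : ℕ) (x : Plus R) : val (n • x) = n • val x := rfl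

instance : NonUnitalNonAssocRing (Plus R) where
  left_distrib x y z := by
    apply ext'
    simp only [val_mul, val_add]
    noncomm_ring
  right_distrib x y z := by
    apply ext'
    simp only [val_mul, val_add]
    noncomm_ring
  zero_mul x := by
    apply ext'
    simp
  mul_zero x := by
    apply ext'
    simp

instance [Finite R] : Finite (Plus R) := inferInstanceAs (Finite R)

lemma isJordanRing : IsJordanRing (Plus R) := by
  intro x y
  constructor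
  · apply ext'
    simp only [val_mul]
    exact add_comm _ _
  · apply ext'
    simp only [val_mul]
    noncomm_ring

/-- Strictly upper triangular matrices. -/
def sub : NonUnitalSubring (Plus (Matrix (Fin 3) (Fin 3) R)) where
  carrier := {x | ∀ i j : Fin 3, j ≤ i → val x i j = 0}
  add_mem' := by
    intro x y hx hy i j hij
    rw [val_add, Matrix.add_apply, hx i j hij, hy i j hij, add_zero]
  zero_mem' := fun i j _ => rfl
  mul_mem' := by
    intro x y hx hy i j hij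
    rw [val_mul, Matrix.add_apply, Matrix.mul_apply, Matrix.mul_apply,
      Finset.sum_eq_zero, Finset.sum_eq_zero, add_zero]
    · intro k _
      rcases le_total k i with h | h
      · rw [hy i k h, zero_mul]
      · rw [hx k j (hij.trans h), mul_zero]
    · intro k _
      rcases le_total k i with h | h
      · rw [hx i k h, zero_mul]
      · rw [hy k j (hij.trans h), mul_zero]
  neg_mem' := by
    intro x hx i j hij
    rw [val_neg, Matrix.neg_apply, hx i j hij, neg_zero]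

/-- products of three strictly upper triangular matrices -/
lemma mul_three (x y z : Matrix (Fin 3) (Fin 3) R) (hx : ∀ i j : Fin 3, j ≤ i → x i j = 0)
    (hy : ∀ i j : Fin 3, j ≤ i → y i j = 0) (hz : ∀ i j : Fin 3, j ≤ i → z i j = 0) :
    x * y * z = 0 := by
  have hx' : x 0 0 = 0 ∧ x 1 0 = 0 ∧ x 1 1 = 0 ∧ x 2 0 = 0 ∧ x 2 1 = 0 ∧ x 2 2 = 0 :=
    ⟨hx _ _ (by decide), hx _ _ (by decide), hx _ _ (by decide), hx _ _ (by decide),
      hx _ _ (by decide), hx _ _ (by decide)⟩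
  have hy' : y 0 0 = 0 ∧ y 1 0 = 0 ∧ y 1 1 = 0 ∧ y 2 0 = 0 ∧ y 2 1 = 0 ∧ y 2 2 = 0 :=
    ⟨hy _ _ (by decide), hy _ _ (by decide), hy _ _ (by decide), hy _ _ (by decide),
      hy _ _ (by decide), hy _ _ (by decide)⟩
  have hz' : z 0 0 = 0 ∧ z 1 0 = 0 ∧ z 1 1 = 0 ∧ z 2 0 = 0 ∧ z 2 1 = 0 ∧ z 2 2 = 0 :=
    ⟨hz _ _ (by decide), hz _ _ (by decide), hz _ _ (by decide), hz _ _ (by decide),
      hz _ _ (by decide), hz _ _ (by decide)⟩
  obtain ⟨a1, a2, a3, a4, a5, a6⟩ := hx'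
  obtain ⟨b1, b2, b3, b4, b5, b6⟩ := hy'
  obtain ⟨c1, c2, c3, c4, c5, c6⟩ := hz'
  ext i j
  fin_cases i <;> fin_cases j <;>
    simp [Matrix.mul_apply, Fin.sum_univ_three, a1, a2, a3, a4, a5, a6, b1, b2, b3, b4, b5, b6,
      c1, c2, c3, c4, c5, c6]

theorem not_finiteBasis (p : ℕ) [hp : Fact p.Prime] :
    ¬ HasFiniteBasisAmongRings (Plus (Matrix (Fin 3) (Fin 3) (ZMod p))) := by
  refine criterion _ sub p hp.out ?_ ?_ ?_
  · intro x _
    apply ext'
    rw [val_nsmul]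
    ext i j
    simp
  · intro x hx y hy z hz
    constructor <;> apply ext'
    · rw [val_mul, val_mul, add_mul, mul_add, ← mul_assoc, ← mul_assoc, mul_three _ _ _ hx hy hz,
        mul_three _ _ _ hy hx hz, mul_three _ _ _ hz hx hy, mul_three _ _ _ hz hy hx]
      simp
    · rw [val_mul, val_mul, add_mul, mul_add, ← mul_assoc, ← mul_assoc, mul_three _ _ _ hx hy hz,
        mul_three _ _ _ hx hz hy, mul_three _ _ _ hy hz hx, mul_three _ _ _ hz hy hx]
      simp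
  · refine ⟨(Matrix.single 0 1 1 : Matrix (Fin 3) (Fin 3) (ZMod p)), ?_,
      (Matrix.single 1 2 1 : Matrix (Fin 3) (Fin 3) (ZMod p)), ?_, ?_⟩
    · intro i j hij
      change (Matrix.single 0 1 1 : Matrix (Fin 3) (Fin 3) (ZMod p)) i j = 0
      fin_cases i <;> fin_cases j <;> simp_all [Matrix.single]
    · intro i j hij
      change (Matrix.single 1 2 1 : Matrix (Fin 3) (Fin 3) (ZMod p)) i j = 0
      fin_cases i <;> fin_cases j <;> simp_all [Matrix.single]
    · intro h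
      have h1 : (Matrix.single 0 1 1 * Matrix.single 1 2 1 +
        Matrix.single 1 2 1 * Matrix.single 0 1 1 : Matrix (Fin 3) (Fin 3) (ZMod p)) = 0 := h
      have h2 := congrFun (congrFun h1 0) 2
      simp [Matrix.mul_apply, Matrix.single, Fin.sum_univ_three] at h2

theorem not_assoc (p : ℕ) [hp : Fact p.Prime] (hp2 : p ≠ 2) :
    ∃ x y z : Plus (Matrix (Fin 3) (Fin 3) (ZMod p)), (x * y) * z ≠ x * (y * z) := by
  refine ⟨(Matrix.single 0 1 1 : Matrix (Fin 3) (Fin 3) (ZMod p)),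
    (Matrix.single 0 1 1 : Matrix (Fin 3) (Fin 3) (ZMod p)),
    (Matrix.single 1 0 1 : Matrix (Fin 3) (Fin 3) (ZMod p)), ?_⟩
  intro h
  let X : Matrix (Fin 3) (Fin 3) (ZMod p) := Matrix.single 0 1 1
  let Y : Matrix (Fin 3) (Fin 3) (ZMod p) := Matrix.single 1 0 1
  have h1 : (X * X + X * X) * Y + Y * (X * X + X * X) = X * (X * Y + Y * X) + (X * Y + Y * X) * X :=
    h
  have h2 := congrFun (congrFun h1 0) 1
  have h3 : (2 : ZMod p) = 0 := by
    simp [X, Y, Matrix.mul_add, Matrix.add_mul, Matrix.single_mul_single_same,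
      Matrix.single_mul_single_of_ne] at h2
    have h4 : (1 : ZMod p) + 1 = 0 := h2.symm
    rw [← h4]
    norm_num
  have h4 : (p : ℕ) ∣ 2 := (ZMod.natCast_eq_zero_iff 2 p).1 (by exact_mod_cast h3)
  exact hp2 ((Nat.prime_dvd_prime_iff_eq hp.out Nat.prime_two).1 h4)

end Plus

/-- The ring `x F_p[x]/(x³)`: pairs `(a, f)` with the product `(a, f) (b, g) = (0, a b)`. -/
abbrev Nil3 (p : ℕ) [Fact p.Prime] : Type := Tw (LinearMap.mul (ZMod p) (ZMod p))

namespace Nil3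

variable (p : ℕ) [hp : Fact p.Prime]

theorem not_finiteBasis : ¬ HasFiniteBasisAmongRings (Nil3 p) := by
  refine criterion _ ⊤ p hp.out ?_ ?_ ?_
  · intro x _
    have : p • x = (twEquiv _).symm (p • twEquiv _ x) := rfl
    rw [this]
    ext <;> simp [twEquiv]
  · intro x _ y _ z _
    exact ⟨tw_mul_mul _ _ _ _, tw_mul_mul' _ _ _ _⟩
  · refine ⟨⟨1, 0⟩, trivial, ⟨1, 0⟩, trivial, ?_⟩
    intro h
    have := congrArg Tw.snd h
    simp at this

theorem isAlternative : IsAlternative (Nil3 p) := by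
  intro x y
  rw [tw_mul_mul, tw_mul_mul', tw_mul_mul, tw_mul_mul']
  exact ⟨rfl, rfl⟩

theorem isJordanRing : IsJordanRing (Nil3 p) := by
  intro x y
  refine ⟨?_, ?_⟩
  · ext
    · rfl
    · simp [mul_comm]
  · rw [tw_mul_mul, tw_mul_mul']

theorem card : Nat.card (Nil3 p) = p ^ 2 := by
  rw [Nat.card_congr (twEquiv _), Nat.card_prod, Nat.card_zmod, sq]

end Nil3

end Pool.Agent.H351R3.QI
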