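import Pool.Agent.H351R3.QI.Core
import Pool.Agent.H351R3.QI.Count

/-!
A finite ring with a class-2 nilpotent subring of prime exponent and nonzero product has no
finite basis of quasi-identities.
-/

set_option autoImplicit false

namespace Pool.Agent.H351R3.QI

open Submodule

/-- The space of vectors with two blocks of coordinates. -/
abbrev Vm (p m : ℕ) : Type := (Fin m ⊕ Fin m) → ZMod p

section

variable {p : ℕ} [Fact p.Prime]

lemma addHom_ext_Vm {m : ℕ} {A : Type} [AddCommMonoid A] (κ κ' : Vm p m →+ A)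
    (h : ∀ i, κ (Pi.single i 1) = κ' (Pi.single i 1)) : κ = κ' := by
  apply AddMonoidHom.functions_ext
  intro i x
  have hx : (Pi.single i x : Vm p m) = x.val • Pi.single i 1 := by
    rw [← Pi.single_smul, nsmul_eq_mul, mul_one, ZMod.natCast_zmod_val]
  rw [hx, map_nsmul, map_nsmul, h]

variable {N : Type} [AddCommGroup N] [Module (ZMod p) N]
  (γ : N →ₗ[ZMod p] N →ₗ[ZMod p] N)

/-- the linear map `v ↦ v(inl i) x + v(inr j) y` -/
def lij (m : ℕ) (x y : N) (i j : Fin m) : Vm p m →ₗ[ZMod p] N :=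
  (LinearMap.proj (Sum.inl i)).smulRight x + (LinearMap.proj (Sum.inr j)).smulRight y

lemma lij_inl (m : ℕ) (x y : N) (i j i' : Fin m) :
    lij (p := p) m x y i j (Pi.single (Sum.inl i') 1) = if i = i' then x else 0 := by
  simp only [lij, LinearMap.add_apply, LinearMap.smulRight_apply, LinearMap.proj_apply]
  have h0 : (Pi.single (Sum.inl i') 1 : Vm p m) (Sum.inr j) = 0 :=
    Pi.single_eq_of_ne (by simp) _
  rw [h0, zero_smul, add_zero]
  split_ifs with h
  · subst h
    rw [Pi.single_eq_same, one_smul]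
  · rw [Pi.single_eq_of_ne (by simpa using h), zero_smul]

lemma lij_inr (m : ℕ) (x y : N) (i j j' : Fin m) :
    lij (p := p) m x y i j (Pi.single (Sum.inr j') 1) = if j = j' then y else 0 := by
  simp only [lij, LinearMap.add_apply, LinearMap.smulRight_apply, LinearMap.proj_apply]
  rw [Pi.single_eq_of_ne (by simp), zero_smul, zero_add]
  split_ifs with h
  · subst h
    rw [Pi.single_eq_same, one_smul]
  · rw [Pi.single_eq_of_ne (by simpa using h), zero_smul]

lemma card_TT_ge (m : ℕ) (x y : N) (hxy : γ x y ≠ 0) [Fintype (TT γ (Vm p m))] :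
    p ^ (m * m) ≤ Fintype.card (TT γ (Vm p m)) := by
  classical
  have hc : p ^ (m * m) = Fintype.card (Fin m × Fin m → ZMod p) := by
    simp [ZMod.card]
  rw [hc]
  let g : (Fin m × Fin m → ZMod p) → TT γ (Vm p m) := fun c =>
    ∑ ij : Fin m × Fin m, c ij • bz γ (Vm p m) (Pi.single (Sum.inl ij.1) 1)
      (Pi.single (Sum.inr ij.2) 1)
  have hg : ∀ (c : Fin m × Fin m → ZMod p) (ij : Fin m × Fin m),
      evT γ (Vm p m) (lij m x y ij.1 ij.2) (g c) = c ij • γ x y := by
    intro c ij
    rw [map_sum, Finset.sum_eq_single ij]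
    · rw [map_smul, evT_bz, lij_inl, lij_inr, if_pos rfl, if_pos rfl]
    · intro kl _ hne
      rw [map_smul, evT_bz, lij_inl, lij_inr]
      by_cases h1 : ij.1 = kl.1
      · have h2 : ij.2 ≠ kl.2 := fun h2 => hne (Prod.ext h1.symm h2.symm)
        rw [if_neg h2, map_zero, smul_zero]
      · rw [if_neg h1, map_zero, LinearMap.zero_apply, smul_zero]
    · intro h
      exact absurd (Finset.mem_univ _) h
  refine Fintype.card_le_of_injective g ?_
  intro c c' h
  funext ij
  have h1 := hg c ij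
  rw [h, hg, ← sub_eq_zero, ← sub_smul] at h1
  exact (sub_eq_zero.1 ((smul_eq_zero.1 h1).resolve_right hxy)).symm

end

lemma holds_of_injective {A N : Type} [NonUnitalNonAssocRing A] [NonUnitalNonAssocRing N]
    (f : N → A) (hf : Function.Injective f) (hadd : ∀ a b, f (a + b) = f a + f b)
    (hmul : ∀ a b, f (a * b) = f a * f b) (q : QId) (hq : q.Holds A) : q.Holds N := by
  let φ : N →+ A := AddMonoidHom.mk' f hadd
  intro v hyp
  apply hf
  exact concl_partial φ (fun _ => True) trivial (fun _ _ _ _ => trivial) (fun _ _ => trivial)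
    (fun _ _ _ _ => trivial) (fun a b _ _ => hmul a b) q hq v (fun _ _ => trivial) hyp

variable {p : ℕ} [hp : Fact p.Prime]

lemma no_basis_aux {A N : Type} [NonUnitalNonAssocRing A] [Finite A]
    [NonUnitalNonAssocRing N] [Module (ZMod p) N]
    (f : N → A) (hf : Function.Injective f) (hadd : ∀ a b, f (a + b) = f a + f b)
    (hmul : ∀ a b, f (a * b) = f a * f b)
    (γ : N →ₗ[ZMod p] N →ₗ[ZMod p] N) (hγ : ∀ a b, γ a b = a * b)
    (h3 : ∀ a b c : N, a * b * c = 0) (h3' : ∀ a b c : N, a * (b * c) = 0)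
    (x y : N) (hxy : x * y ≠ 0) : ¬ HasFiniteBasisAmongRings A := by
  classical
  have hN : Finite N := Finite.of_injective f hf
  apply not_finiteBasis
  intro k
  have hA : Fintype A := Fintype.ofFinite A
  set r : ℕ := Fintype.card A with hr
  set m : ℕ := 2 * r + 2 * k + k * k + 3 with hm
  set D : ℕ := 2 * m * r + 1 with hD
  have hfin : Finite (Vm p m →ₗ[ZMod p] N) := DFunLike.finite _
  have hTfin : Fintype (TT γ (Vm p m)) := Fintype.ofFinite _
  have hγxy : γ x y ≠ 0 := by rwa [hγ]
  have hTcard := card_TT_ge (p := p) γ m x y hγxy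
  let w : (Fin k → Vm p m) × (Fin k × Fin k → ZMod p) → TT γ (Vm p m) := fun ue =>
    ∑ ab : Fin k × Fin k, ue.2 ab • bz γ (Vm p m) (ue.1 ab.1) (ue.1 ab.2)
  have hnontriv : (⊥ : AddSubgroup (TT γ (Vm p m))) ≠ ⊤ := by
    intro h
    have h1 : bz γ (Vm p m) (Pi.single (Sum.inl ⟨0, by omega⟩) 1)
        (Pi.single (Sum.inr ⟨0, by omega⟩) 1) ∈ (⊥ : AddSubgroup (TT γ (Vm p m))) := by
      rw [h]; trivial
    have h2 := (AddSubgroup.mem_bot.1 h1)
    have h3 := congrArg (evT γ (Vm p m) (lij m x y ⟨0, by omega⟩ ⟨0, by omega⟩)) h2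
    rw [evT_bz, lij_inl, lij_inr, if_pos rfl, if_pos rfl, map_zero] at h3
    exact hγxy h3
  have hK : ∀ j : (Fin m ⊕ Fin m) → A, ∃ K : AddSubgroup (TT γ (Vm p m)), K ≠ ⊤ ∧
      ∀ (κ : Vm p m →+ A) (h : TT γ (Vm p m) →+ A), (∀ i, κ (Pi.single i 1) = j i) →
        (∀ a b, h (bz γ (Vm p m) a b) = κ a * κ b) → h ≠ 0 → h.ker = K := by
    intro j
    by_cases hex : ∃ (κ : Vm p m →+ A) (h : TT γ (Vm p m) →+ A),
        (∀ i, κ (Pi.single i 1) = j i) ∧ (∀ a b, h (bz γ (Vm p m) a b) = κ a * κ b) ∧ h ≠ 0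
    · obtain ⟨κ, h, h1, h2, h3⟩ := hex
      refine ⟨h.ker, ?_, ?_⟩
      · intro htop
        apply h3
        ext t
        have : t ∈ h.ker := by rw [htop]; trivial
        exact this
      · intro κ' h' h1' h2' h3'
        have hκ : κ' = κ := addHom_ext_Vm κ' κ fun i => by rw [h1, h1']
        have : h' = h := by
          ext t
          refine TT_induction γ (Vm p m) (P := fun t => h' t = h t) ?_ ?_ ?_ t
          · rw [map_zero, map_zero]
          · intro s t hs ht
            rw [map_add, map_add, hs, ht]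
          · intro a b
            rw [h2, h2', hκ]
        rw [this]
    · refine ⟨⊥, hnontriv, ?_⟩
      intro κ h h1 h2 h3
      exact absurd ⟨κ, h, h1, h2, h3⟩ hex
  choose K hK1 hK2 using hK
  have hp2 : 2 ≤ p := hp.out.two_le
  have hcard1 : Fintype.card ((Fin m ⊕ Fin m) → A) * 2 ≤ 2 ^ D := by
    have h1 : Fintype.card ((Fin m ⊕ Fin m) → A) = r ^ (m + m) := by
      simp [hr]
    have h2 : r ≤ 2 ^ r := (Nat.lt_two_pow_self).le
    rw [h1, hD, pow_succ]
    refine Nat.mul_le_mul_right _ ((Nat.pow_le_pow_left h2 _).trans (le_of_eq ?_))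
    rw [← pow_mul]
    congr 1
    ring
  have hcard2 : 2 * (Fintype.card (ZMod p) ^ D *
      Fintype.card ((Fin k → Vm p m) × (Fin k × Fin k → ZMod p))) <
      Fintype.card (TT γ (Vm p m)) := by
    refine lt_of_lt_of_le ?_ hTcard
    have h1 : Fintype.card ((Fin k → Vm p m) × (Fin k × Fin k → ZMod p)) =
        p ^ ((m + m) * k + k * k) := by
      simp [ZMod.card, pow_add, pow_mul]
    rw [h1, ZMod.card, ← pow_add]
    calc 2 * p ^ (D + ((m + m) * k + k * k)) ≤ p * p ^ (D + ((m + m) * k + k * k)) :=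
          Nat.mul_le_mul_right _ hp2
      _ = p ^ (D + ((m + m) * k + k * k) + 1) := by rw [pow_succ]; ring
      _ < p ^ (m * m) := by
          apply Nat.pow_lt_pow_right hp2
          have : m * m = (2 * r + 2 * k + k * k + 3) * m := by rw [← hm]
          rw [this, hD]
          nlinarith [Nat.zero_le (k * k), Nat.zero_le r, Nat.zero_le k]
  obtain ⟨z, hz1, hz2⟩ := exists_good (F := ZMod p) D w K hK1 hcard1 hcard2
  set Z : Submodule (ZMod p) (TT γ (Vm p m)) := span (ZMod p) (Set.range z) with hZ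
  let β := (bz γ (Vm p m)).compr₂ Z.mkQ
  refine ⟨Tw β, inferInstance, ?_, ?_⟩
  · intro q hq hqA
    refine holds_Tw γ hγ h3 h3' x y hxy (Vm p m) Z k ?_ q hq
      (holds_of_injective f hf hadd hmul q hqA)
    intro s hs
    rw [Submodule.disjoint_def]
    intro t ht1 ht2
    by_contra ht0
    obtain ⟨c, hc⟩ := (Submodule.mem_span_range_iff_exists_fun (ZMod p)).1 ht2
    have hc0 : c ≠ 0 := by
      rintro rfl
      apply ht0
      rw [← hc]
      simp
    -- enumerate `s`
    obtain ⟨u, hu⟩ : ∃ u : Fin k → Vm p m, (s : Set (Vm p m)) ⊆ Set.range u := by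
      refine ⟨fun i => if hi : (i : ℕ) < s.card then (s.equivFin.symm ⟨i, hi⟩ : Vm p m) else 0,
        fun a ha => ?_⟩
      refine ⟨⟨s.equivFin ⟨a, ha⟩, (s.equivFin ⟨a, ha⟩).2.trans_le hs⟩, ?_⟩
      dsimp only
      rw [dif_pos (s.equivFin ⟨a, ha⟩).2, Fin.eta, Equiv.symm_apply_apply]
    have h5 : t ∈ span (ZMod p) (Set.range fun ab : Fin k × Fin k =>
        bz γ (Vm p m) (u ab.1) (u ab.2)) := by
      have h6 : map₂ (bz γ (Vm p m)) (span (ZMod p) (s : Set (Vm p m)))
          (span (ZMod p) (s : Set (Vm p m))) ≤ map₂ (bz γ (Vm p m))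
          (span (ZMod p) (Set.range u)) (span (ZMod p) (Set.range u)) :=
        map₂_le_map₂ (span_mono hu) (span_mono hu)
      have h7 := h6 ht1
      rw [map₂_span_span] at h7
      refine span_mono ?_ h7
      rintro _ ⟨_, ⟨a, rfl⟩, _, ⟨b, rfl⟩, rfl⟩
      exact ⟨(a, b), rfl⟩
    obtain ⟨e, he⟩ := (Submodule.mem_span_range_iff_exists_fun (ZMod p)).1 h5
    exact hz1 c hc0 (u, e) (hc.trans he.symm)
  · -- a nonzero element killed by all homomorphisms
    obtain ⟨t, ht⟩ : ∃ t : TT γ (Vm p m), t ∉ Z := by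
      by_contra hcon
      push Not at hcon
      have hsurj : Function.Surjective (fun c : Fin D → ZMod p => ∑ a, c a • z a) := by
        intro t
        exact (Submodule.mem_span_range_iff_exists_fun (ZMod p)).1 (hcon t)
      have h1 := Fintype.card_le_of_surjective _ hsurj
      have h2 : Fintype.card (Fin D → ZMod p) = Fintype.card (ZMod p) ^ D := by simp
      rw [h2] at h1
      have h3 : 1 ≤ Fintype.card ((Fin k → Vm p m) × (Fin k × Fin k → ZMod p)) :=
        Fintype.card_pos_iff.2 ⟨0⟩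
      have h4 : Fintype.card (ZMod p) ^ D * 1 ≤ Fintype.card (ZMod p) ^ D *
          Fintype.card ((Fin k → Vm p m) × (Fin k × Fin k → ZMod p)) :=
        Nat.mul_le_mul_left _ h3
      omega
    refine diagram (B := Tw β) (⟨0, Z.mkQ t⟩ : Tw β) ?_ ?_
    · intro h
      have h1 : Z.mkQ t = 0 := congrArg Tw.snd h
      rw [Submodule.mkQ_apply, Submodule.Quotient.mk_eq_zero] at h1
      exact ht h1
    · intro φ hφadd hφmul
      have hφ0 : φ 0 = 0 := by
        have := hφadd 0 0
        rw [add_zero] at this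
        exact left_eq_add.1 this
      let κ : Vm p m →+ A :=
        AddMonoidHom.mk' (fun a => φ ⟨a, 0⟩) (fun a b => by
          rw [← hφadd]
          congr 1
          ext1
          · rfl
          · exact (add_zero _).symm)
      let h : TT γ (Vm p m) →+ A :=
        AddMonoidHom.mk' (fun t => φ ⟨0, Z.mkQ t⟩) (fun a b => by
          rw [← hφadd, map_add]
          congr 1
          ext1
          · exact (add_zero _).symm
          · rfl)
      have hcomp : ∀ a b, h (bz γ (Vm p m) a b) = κ a * κ b := by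
        intro a b
        change φ ⟨0, Z.mkQ (bz γ (Vm p m) a b)⟩ = φ ⟨a, 0⟩ * φ ⟨b, 0⟩
        rw [← hφmul]
        rfl
      have hzero : h = 0 := by
        by_contra hne
        have hker := hK2 _ κ h (fun _ => rfl) hcomp hne
        obtain ⟨a, ha⟩ := hz2 (fun i => κ (Pi.single i 1))
        apply ha
        rw [← hker, AddMonoidHom.mem_ker]
        change φ ⟨0, Z.mkQ (z a)⟩ = 0
        have : Z.mkQ (z a) = 0 := by
          rw [Submodule.mkQ_apply, Submodule.Quotient.mk_eq_zero]
          exact subset_span ⟨a, rfl⟩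
        rw [this]
        exact hφ0
      change h t = 0
      rw [hzero]
      rfl

end Pool.Agent.H351R3.QI
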